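import Pool.Agent.Helper49.RZ.St

/-!
# Project RZ (MP_77656e_ag), module L5: h-projective modules and the Whitehead theorem
-/

set_option autoImplicit false

namespace Pool.Agent.Helper1.RZL

open Pool.Agent.Helper17.RZ Pool.Agent.Helper49.RZ

universe u v w

/-! ### generalities on DG categories -/

theorem d_one {k : Type u} [Field k] (C : DGCat.{u, v, w} k) (X : C.Obj) :
    C.d (zero_add 1) (C.one X) = 0 := by
  have h := C.d_comp (zero_add 0) (zero_add 1) (zero_add 1) (zero_add 1) (add_zero 1) (zero_add 1)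
    (C.one X) (C.one X)
  rw [C.one_comp, C.comp_one, C.one_comp, Int.negOnePow_zero, one_smul] at h
  have := h
  rw [left_eq_add] at this
  exact this

/-- Contractible cones give homotopy inverses. -/
theorem whitehead_aux {k : Type u} [Field k] (C : DGCat.{u, v, w} k) {P Q Z : C.Obj}
    (f : C.Hom P Q 0) (hZ : IsCone C f Z) (hc : ∃ c : C.Hom Z Z (-1),
      C.one Z = C.d (neg_add_cancel 1) c) :
    ∃ (g : C.Hom Q P 0) (s : C.Hom P P (-1)) (t : C.Hom Q Q (-1)),
      C.d (zero_add 1) g = 0 ∧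
      C.comp (zero_add 0) g f = C.one P + C.d (neg_add_cancel 1) s ∧
      C.comp (zero_add 0) f g = C.one Q + C.d (neg_add_cancel 1) t := by
  obtain ⟨i, p, j, q, hpi, hqj, hsum, hpj, hqi, hdi, hdq, hdj, hdp⟩ := hZ
  obtain ⟨c, hc⟩ := hc
  -- `ci : Q → Z` of degree `-1`, `d (c i) = i`
  set ci : C.Hom Q Z (-1) := C.comp (add_zero (-1)) c i with hci
  have hdci : C.d (neg_add_cancel 1) ci = i := by
    rw [hci, C.d_comp (add_zero (-1)) (neg_add_cancel 1) (neg_add_cancel 1) (zero_add 1) (add_zero 0)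
      (neg_add_cancel 1) c i, ← hc, C.one_comp, hdi, map_zero, smul_zero, add_zero]
  -- `d (c j) = j - c i f`
  set cj : C.Hom P Z (-2) := C.comp (show (-1 : ℤ) + -1 = -2 by norm_num) c j with hcj
  have hdcj : C.d (show (-2 : ℤ) + 1 = -1 by norm_num) cj = j - C.comp (add_zero (-1)) ci f := by
    rw [hcj, C.d_comp (show (-1 : ℤ) + -1 = -2 by norm_num) (show (-2 : ℤ) + 1 = -1 by norm_num)
      (neg_add_cancel 1) (neg_add_cancel 1) (zero_add (-1)) (add_zero (-1)) c j, ← hc, C.one_comp, hdj,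
      hci, C.assoc (add_zero (-1)) (add_zero (-1)) (zero_add 0) (add_zero (-1)) c i f,
      show ((-1 : ℤ)).negOnePow = -1 by decide, Units.neg_smul, one_smul, sub_eq_add_neg]
  refine ⟨C.comp (add_neg_cancel 1) q ci, C.comp (show (1 : ℤ) + -2 = -1 by norm_num) q cj,
    - C.comp (zero_add (-1)) p ci, ?_, ?_, ?_⟩
  · -- `d g = 0`
    rw [C.d_comp (add_neg_cancel 1) (zero_add 1) (rfl : (1 : ℤ) + 1 = 1 + 1) (neg_add_cancel 1)
      (show (1 : ℤ) + 1 + -1 = 1 by norm_num) (add_zero 1) q ci, hdq, map_zero, LinearMap.zero_apply,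
      hdci, hqi, smul_zero, add_zero]
  · -- `g f = 1 + d (q c j)`
    rw [C.d_comp (show (1 : ℤ) + -2 = -1 by norm_num) (neg_add_cancel 1) (rfl : (1 : ℤ) + 1 = 1 + 1)
      (show (-2 : ℤ) + 1 = -1 by norm_num) (show (1 : ℤ) + 1 + -2 = 0 by norm_num)
      (add_neg_cancel 1) q cj, hdq, map_zero, LinearMap.zero_apply, zero_add, hdcj, map_sub, hqj,
      Int.negOnePow_one, Units.neg_smul, one_smul,
      ← C.assoc (add_neg_cancel 1) (zero_add 0) (add_zero (-1)) (add_neg_cancel 1) q ci f]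
    abel
  · -- `f g = 1 - d (p c i)`
    rw [map_neg, C.d_comp (zero_add (-1)) (neg_add_cancel 1) (zero_add 1) (neg_add_cancel 1)
      (add_neg_cancel 1) (zero_add 0) p ci, hdci, hpi, hdp, map_neg, LinearMap.neg_apply,
      Int.negOnePow_zero, one_smul,
      C.assoc (zero_add 1) (add_neg_cancel 1) (add_neg_cancel 1) (zero_add 0) f q ci]
    abel

/-! ### the statements -/

theorem hProjThick (hD : DevA.{u, max u ((max v w) + 1) v, max v w}) (hY : Yoneda.{u, v, w})
    (hYD : YonedaD.{u, v, w}) : HProjThick.{u, v, w} := by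
  intro k _ V P hP A hA
  refine hD IsRep A ?_ P hP
  rintro X ⟨X0, rfl⟩
  intro l n m h₁ h₂ φ hφ
  have hφ' : dHom h₂ (φ : ModHom (rep X0) A n) = 0 := hφ
  have h1 := hYD X0 A h₂ φ
  rw [hφ', ap_zero] at h1
  obtain ⟨z, hz⟩ := hA X0 h₁ h₂ _ h1.symm
  obtain ⟨ψ, hψ⟩ := (hY X0 A l).2 z
  refine ⟨ψ, (hY X0 A n).1 ?_⟩
  have h2 := hYD X0 A h₁ ψ
  change ap (φ : ModHom (rep X0) A n) _ _ = ap (dHom h₁ ψ) _ _
  rw [h2]
  change ap ψ _ _ = z at hψ
  rw [hψ]
  exact hz

theorem hProjSum (hS : SumUniv.{u, v, w}) : HProjSum.{u, v, w} := by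
  intro k _ V P hP A hA l n m h₁ h₂ φ hφ
  obtain ⟨hs1, hs2, hs3⟩ := hS P A
  have hφ' : (ModCat V).d h₂ φ = 0 := hφ
  have key : ∀ i, (ModCat V).d h₂ ((ModCat V).comp (add_zero n) φ (inc P i)) = 0 := by
    intro i
    have hinc : (ModCat V).d (zero_add 1) (inc P i : (ModCat V).Hom P (sumN P) 0) = 0 := hs1 i
    rw [(ModCat V).d_comp (add_zero n) h₂ h₂ (zero_add 1) (add_zero m) h₂ φ (inc P i), hφ', hinc,
      map_zero, map_zero, LinearMap.zero_apply, smul_zero, add_zero]
  choose z hz using fun i => hP A hA h₁ h₂ ((ModCat V).comp (add_zero n) φ (inc P i)) (key i)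
  obtain ⟨ψ, hψ⟩ := hs2 l z
  refine ⟨ψ, hs3 n _ _ fun i => ?_⟩
  have hinc : (ModCat V).d (zero_add 1) (inc P i : (ModCat V).Hom P (sumN P) 0) = 0 := hs1 i
  have h3 := (ModCat V).d_comp (add_zero l) h₁ h₁ (zero_add 1) (add_zero n) h₁ ψ (inc P i)
  rw [hinc, map_zero, smul_zero, add_zero] at h3
  have h4 : (ModCat V).comp (add_zero l) ψ (inc P i) = z i := hψ i
  rw [h4] at h3
  exact (hz i).trans h3

theorem hProjCone (hD : DevA.{u, max u ((max v w) + 1) v, max v w}) : HProjCone.{u, v, w} := by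
  intro k _ V P Q Z f hf hZ hP hQ A hA
  refine hD (fun X => X = P ∨ X = Q) A ?_ Z
    (DGThick.cone P Q Z f (DGThick.base P (Or.inl rfl)) (DGThick.base Q (Or.inr rfl)) hf hZ)
  rintro X (rfl | rfl)
  · exact hP A hA
  · exact hQ A hA

/-- The cone of a pointwise quasi-isomorphism is pointwise acyclic. -/
theorem acyc_cone {k : Type u} [Field k] {V : DGCat.{u, v, w} k} (P Q Z : (ModCat V).Obj)
    (f : (ModCat V).Hom P Q 0) (hf : (ModCat V).d (zero_add 1) f = 0) (hZ : IsCone (ModCat V) f Z)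
    (hq : ∀ X, (evMap (V := V) f hf X).QI) : AcycMod (V := V) Z := by
  intro X l n m h₁ h₂ x hx
  obtain ⟨i, p, j, q, hpi, hqj, hsum, hpj, hqi, hdi, hdq, hdj, hdp⟩ := hZ
  change ModHom Q Z 0 at i
  change ModHom Z Q 0 at p
  change ModHom P Z (-1) at j
  change ModHom Z P 1 at q
  change ModHom P Q 0 at f
  -- degrees: `x` in degree `n`, `q x` in degree `m`
  have hqx : (P.M X).d (rfl : m + 1 = m + 1) (ap q (show 1 + n = m by omega) x) = 0 := by
    have h := d_ap (rfl : (1 : ℤ) + 1 = 1 + 1) q (show 1 + 1 + n = m + 1 by omega) (rfl : m + 1 = m + 1)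
      (show 1 + n = m by omega) (show 1 + m = m + 1 by omega) h₂ x
    have hdq' : dHom (rfl : (1 : ℤ) + 1 = 1 + 1) q = 0 := hdq
    rw [hdq', ap_zero, hx, map_zero, smul_zero, sub_zero] at h
    exact h.symm
  have hpx : (Q.M X).d h₂ (ap p (zero_add n) x) = - ap f (zero_add m) (ap q (show 1 + n = m by omega) x) := by
    have h := d_ap (zero_add 1) p (show 1 + n = m by omega) h₂ (zero_add n) (zero_add m) h₂ x
    have hdp' : dHom (zero_add 1) p = - compHom (zero_add 1) f q := hdp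
    rw [hdp', ap_neg, comp_ap (zero_add 1) f q (show 1 + n = m by omega) (zero_add m)
      (show 1 + n = m by omega), hx, map_zero, smul_zero, sub_zero] at h
    exact h.symm
  -- `q x = d a`
  obtain ⟨a, ha⟩ := (hq X).inj h₂ (rfl : m + 1 = m + 1) (ap q (show 1 + n = m by omega) x)
    (- ap p (zero_add n) x) hqx (by
      change ap f (zero_add m) (ap q (show 1 + n = m by omega) x) = _
      rw [map_neg, hpx, neg_neg])
  -- `d (j a) = i f a - j d a`
  have hja : ∀ a : (P.M X).X n, (Z.M X).d h₁ (ap j (show -1 + n = l by omega) a) =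
      ap i (zero_add n) (ap f (zero_add n) a) - ap j (show -1 + m = n by omega) ((P.M X).d h₂ a) := by
    intro a
    have h := d_ap (neg_add_cancel 1) j (zero_add n) h₁ (show -1 + n = l by omega)
      (show -1 + m = n by omega) h₂ a
    have hdj' : dHom (neg_add_cancel 1) j = compHom (zero_add 0) i f := hdj
    rw [hdj', comp_ap (zero_add 0) i f (zero_add n) (zero_add n) (zero_add n),
      show ((-1 : ℤ)).negOnePow = -1 by decide, Units.neg_smul, one_smul, sub_neg_eq_add] at h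
    rw [h]; abel
  -- `x = i p x + j q x`
  have hxs : ap i (zero_add n) (ap p (zero_add n) x) +
      ap j (show -1 + m = n by omega) (ap q (show 1 + n = m by omega) x) = x := by
    have h := congrArg (fun φ : ModHom Z Z 0 => ap φ (zero_add n) x) hsum
    have h' : ap (compHom (zero_add 0) i p + compHom (neg_add_cancel 1) j q) (zero_add n) x =
      ap (oneHom Z) (zero_add n) x := h
    rw [ap_add, comp_ap (zero_add 0) i p (zero_add n) (zero_add n) (zero_add n),
      comp_ap (neg_add_cancel 1) j q (zero_add n) (show -1 + m = n by omega)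
        (show 1 + n = m by omega), oneHom_ap] at h'
    exact h'
  -- `y = p x + f a` is closed
  set y : (Q.M X).X n := ap p (zero_add n) x + ap f (zero_add n) a with hy
  have hfd : ∀ b : (P.M X).X n, (Q.M X).d h₂ (ap f (zero_add n) b) = ap f (zero_add m) ((P.M X).d h₂ b) :=
    fun b => ((evMap (V := V) f hf X).comm h₂ b).symm
  have hyc : (Q.M X).d h₂ y = 0 := by
    rw [hy, map_add, hpx, hfd, ← ha, neg_add_cancel]
  obtain ⟨b, c, hb, hbc⟩ := (hq X).surj h₁ h₂ y hyc
  have hbc' : y = ap f (zero_add n) b + (Q.M X).d h₁ c := hbc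
  have hic : (Z.M X).d h₁ (ap i (zero_add l) c) = ap i (zero_add n) ((Q.M X).d h₁ c) := by
    have h := d_ap (zero_add 1) i (show 1 + l = n by omega) h₁ (zero_add l) (zero_add n) h₁ c
    have hdi' : dHom (zero_add 1) i = 0 := hdi
    rw [hdi', ap_zero, Int.negOnePow_zero, one_smul] at h
    exact (sub_eq_zero.1 h.symm)
  refine ⟨ap j (show -1 + n = l by omega) b + ap i (zero_add l) c - ap j (show -1 + n = l by omega) a, ?_⟩
  rw [map_sub, map_add, hja, hja, hic, hb, map_zero, sub_zero, ← map_add, ← hbc', hy, map_add, ← ha]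
  nth_rewrite 1 [← hxs]
  abel

theorem whitehead (hMC : ModCone.{u, v, w}) (hC : HProjCone.{u, v, w}) : Whitehead.{u, v, w} := by
  intro k _ V P Q f hf hP hQ hq
  obtain ⟨Z, hZ⟩ := hMC P Q f hf
  have hZP : HProj (V := V) Z := hC P Q Z f hf hZ hP hQ
  have hac : AcycMod (V := V) Z := acyc_cone P Q Z f hf hZ hq
  obtain ⟨c, hc⟩ := hZP Z hac (neg_add_cancel 1) (zero_add 1) ((ModCat V).one Z) (d_one (ModCat V) Z)
  exact whitehead_aux (ModCat V) f hZ ⟨c, hc⟩

end Pool.Agent.Helper1.RZL
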